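import Pool.Agent.H589.Boyd.FinalA

/-!
# Boyd's conjecture (Mahler measure and dimension) for nonreciprocal polynomials

Every irreducible integer polynomial `P`, in any number of variables, which is not reciprocal
satisfies `M(P) ^ 4 ≥ dim N(P) / 4`, where `N(P)` is its Newton polytope.  So the Mahler measure of
the nonreciprocal irreducible polynomials tends to infinity with the dimension.
-/

set_option autoImplicit false

open MeasureTheory

namespace Pool.Agent.Results.MP_417103_nt.NonreciprocalCase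

/-- value of `P` at the point of the torus with angles `θ` -/
noncomputable def valueAt {n : ℕ} (P : MvPolynomial (Fin n) ℤ) (θ : Fin n → ℝ) : ℂ :=
  MvPolynomial.eval₂ (Int.castRingHom ℂ)
    (fun i : Fin n => Complex.exp (2 * (Real.pi : ℂ) * Complex.I * ((θ i : ℝ) : ℂ))) P

/-- the Mahler measure -/
noncomputable def mahlerMeasure {n : ℕ} (P : MvPolynomial (Fin n) ℤ) : ℝ :=
  Real.exp (∫ θ in Set.Icc (0 : Fin n → ℝ) 1, Real.log ‖valueAt P θ‖)

/-- dimension of the Newton polytope -/
noncomputable def newtonDim {n : ℕ} (P : MvPolynomial (Fin n) ℤ) : ℕ :=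
  Module.finrank ℝ (vectorSpan ℝ ((fun e : Fin n →₀ ℕ => fun i : Fin n => (e i : ℝ)) ''
    (P.support : Set (Fin n →₀ ℕ))))

/-- `P` is reciprocal: `P(x) = ± x ^ c * P(1/x)` for some exponent `c` -/
def IsReciprocal {n : ℕ} (P : MvPolynomial (Fin n) ℤ) : Prop :=
  ∃ c : Fin n →₀ ℕ, ∃ ε : ℤ, (ε = 1 ∨ ε = -1) ∧ (∀ e ∈ P.support, e ≤ c) ∧
    ∀ e ∈ P.support, P.coeff (c - e) = ε * P.coeff e

theorem result (n : ℕ) (P : MvPolynomial (Fin n) ℤ) (hP : Irreducible P)
    (hR : ¬ IsReciprocal P) : (newtonDim P : ℝ) / 4 ≤ mahlerMeasure P ^ 4 :=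
  Pool.Agent.H589.Boyd.finAT n P hP hR

end Pool.Agent.Results.MP_417103_nt.NonreciprocalCase
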