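import Pool.Agent.H589.Boyd.Final2

/-!
# Boyd's conjecture (Mahler measure and dimension) for small degree in one variable

Every irreducible integer polynomial `P`, in any number of variables, reciprocal or not, of degree
`d ≥ 1` in some variable satisfies `M(P) ^ 4 ≥ m / (d ^ 2 + 4) ^ 2`, where `m` is the dimension of
its Newton polytope.
-/

set_option autoImplicit false

open MeasureTheory

namespace Pool.Agent.Results.MP_417103_nt.SmallDegreeInOneVariable

/-- value of `P` at the point of the torus with angles `θ` -/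
noncomputable def valueAt {n : ℕ} (P : MvPolynomial (Fin n) ℤ) (θ : Fin n → ℝ) : ℂ :=
  MvPolynomial.eval₂ (Int.castRingHom ℂ)
    (fun i : Fin n => Complex.exp (2 * (Real.pi : ℂ) * Complex.I * ((θ i : ℝ) : ℂ))) P

/-- the Mahler measure -/
noncomputable def mahlerMeasure {n : ℕ} (P : MvPolynomial (Fin n) ℤ) : ℝ :=
  Real.exp (∫ θ in Set.Icc (0 : Fin n → ℝ) 1, Real.log ‖valueAt P θ‖)

/-- dimension of the Newton polytope -/
noncomputable def newtonDim {n : ℕ} (P : MvPolynomial (Fin n) ℤ) : ℕ :=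
  Module.finrank ℝ (vectorSpan ℝ ((fun e : Fin n →₀ ℕ => fun i : Fin n => (e i : ℝ)) ''
    (P.support : Set (Fin n →₀ ℕ))))

theorem result (n : ℕ) (P : MvPolynomial (Fin n) ℤ) (hP : Irreducible P) (i : Fin n)
    (hi : 1 ≤ P.degreeOf i) :
    (newtonDim P : ℝ) / ((P.degreeOf i : ℝ) ^ 2 + 4) ^ 2 ≤ mahlerMeasure P ^ 4 :=
  Pool.Agent.H589.Boyd.bound_degree2 P hP i hi

end Pool.Agent.Results.MP_417103_nt.SmallDegreeInOneVariable
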